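import Pool.Agent.Q184.BLK.Main

set_option autoImplicit false

/-!
# MP_5168f5: the full Kakeya maximal function on Brascamp–Lieb products

Let `A i : Fin (d i) → ℝ^n` (`i < k`) be orthonormal families, `co (A i) x ∈ ℝ^(d i)` the
coordinates `⟨A i j, x⟩` of the orthogonal projection of `x` onto the span of `A i`, and
`f x = ∏ i, g i (co (A i) x)`.  There is NO relation between the families `A i` for different `i`:
the projections are not orthogonal to each other, and in part (1) their number is arbitrary.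

* (1) If the Brascamp–Lieb inequality holds for these projections, with the exponents `p i` and the
  constant `B`, then the Kakeya maximal function of `f` satisfies, with a logarithmic loss, the
  estimate `∫ (f*_δ)^n ≤ B ∏ i (∫ |g i|^(n / p i))^(p i)` that the Brascamp–Lieb inequality gives
  for `∫ |f|^n`.
* (2) If the projections are complementary (a non-orthogonal direct sum), the estimate of the
  Kakeya maximal conjecture holds for `f`, at the critical exponent `n` and with a logarithmic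
  loss: `∫ (f*_δ)^n ≤ C (1 + log (1/δ))^c ∫ |f|^n`.

The constants `C, c` depend on `n` only: they do not depend on the subspaces (on the angles between
them), on the exponents or on the functions.  The functions `g i` may be arbitrary functions of
`d i ≤ 2` variables, and more generally co-monotone functions of `d i` variables.
-/

open MeasureTheory Set Filter Topology ENNReal NNReal Metric

namespace Pool.Agent.Results.MP_5168f5_an.BrascampLiebProducts

/-- Euclidean space. -/
abbrev E (n : ℕ) : Type := EuclideanSpace ℝ (Fin n)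

/-- The closed tube of length `1` and radius `δ` with centre `b` and axis direction `e`. -/
def tube {n : ℕ} (δ : ℝ) (e b : E n) : Set (E n) :=
  {y | |inner ℝ (y - b) e| ≤ 1 / 2 ∧ ‖(y - b) - (inner ℝ (y - b) e : ℝ) • e‖ ≤ δ}

/-- The Kakeya maximal function. -/
noncomputable def kakeyaMax {n : ℕ} (δ : ℝ) (f : E n → ℝ) (e : E n) : ℝ≥0∞ :=
  ⨆ a : E n, (volume (tube δ e a))⁻¹ * ∫⁻ y in tube δ e a, ‖f y‖ₑ

/-- The coordinates `⟨A j, x⟩` of `x` with respect to the vectors `A j`. -/
noncomputable def co {n d : ℕ} (A : Fin d → E n) (x : E n) : Fin d → ℝ := fun j => inner ℝ (A j) x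

/-- There are blocks of at most two variables (`β`) and measurable functions `u k` of the variables
of the block `k` such that `|g|` does not decrease if the variables of the block `0` are kept and
no `u k` with `k ≠ 0` increases. -/
def Comonotone {d : ℕ} (g : (Fin d → ℝ) → ℝ) : Prop :=
  ∃ (β : Fin d → ℕ) (u : ℕ → (Fin d → ℝ) → ℝ),
    (∀ k, Fintype.card {i // β i = k} ≤ 2) ∧ (∀ k, Measurable (u k)) ∧
    (∀ k x y, (∀ i, β i = k → x i = y i) → u k x = u k y) ∧
    ∀ x y, (∀ i, β i = 0 → x i = y i) → (∀ k, k ≠ 0 → u k y ≤ u k x) → |g x| ≤ |g y|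

/-- The Brascamp–Lieb inequality for the projections `co (A i)`, with the exponents `p i` and the
constant `B`. -/
def BrascampLieb {n k : ℕ} {d : Fin k → ℕ} (A : ∀ i, Fin (d i) → E n) (p : Fin k → ℝ)
    (B : ℝ≥0∞) : Prop :=
  ∀ h : ∀ i, (Fin (d i) → ℝ) → ℝ≥0∞, (∀ i, Measurable (h i)) →
    ∫⁻ x : E n, ∏ i, h i (co (A i) x) ^ p i ≤ B * ∏ i, (∫⁻ y, h i y) ^ p i

/-- Change of variables for complementary projections. -/
theorem change {n k : ℕ} {d : Fin k → ℕ} (A : ∀ i, Fin (d i) → E n) (hdn : ∑ i, d i = n)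
    (hinj : ∀ x : E n, (∀ i, co (A i) x = 0) → x = 0) :
    ∃ κ : ℝ≥0∞, ∀ h : ∀ i, (Fin (d i) → ℝ) → ℝ≥0∞, (∀ i, Measurable (h i)) →
      ∫⁻ x : E n, ∏ i, h i (co (A i) x) = κ * ∏ i, ∫⁻ y, h i y := by
  let Λ : E n →ₗ[ℝ] (∀ i, Fin (d i) → ℝ) :=
    { toFun := fun x i => co (A i) x
      map_add' := by
        intro x y
        funext i j
        simp [co, inner_add_right]
      map_smul' := by
        intro c x
        funext i j
        simp [co, inner_smul_right] }
  have hΛ : Function.Injective Λ := by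
    rw [injective_iff_map_eq_zero]
    intro x hx
    exact hinj x (fun i => congrFun hx i)
  have hfin : Module.finrank ℝ (E n) = Module.finrank ℝ (∀ i, Fin (d i) → ℝ) := by
    rw [Module.finrank_pi_fintype]
    simp [hdn]
  let Ψ : E n ≃ₗ[ℝ] (∀ i, Fin (d i) → ℝ) := LinearEquiv.ofInjectiveOfFinrankEq Λ hΛ hfin
  let Θ : E n ≃L[ℝ] (∀ i, Fin (d i) → ℝ) := Ψ.toContinuousLinearEquiv
  have hΘ : ∀ x i, Θ x i = co (A i) x := fun x i => rfl
  have hH : ((volume : Measure (E n)).map Θ).IsAddHaarMeasure := Θ.isAddHaarMeasure_map _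
  have hH' : (volume : Measure (∀ i, Fin (d i) → ℝ)).IsAddHaarMeasure := inferInstance
  obtain ⟨s, hsm⟩ : ∃ s : ℝ≥0, (volume : Measure (E n)).map Θ =
      s • (volume : Measure (∀ i, Fin (d i) → ℝ)) :=
    ⟨_, Measure.isAddLeftInvariant_eq_smul ((volume : Measure (E n)).map Θ)
      (volume : Measure (∀ i, Fin (d i) → ℝ))⟩
  refine ⟨s, ?_⟩
  intro h hh
  have hm : Measurable (fun y : ∀ i, Fin (d i) → ℝ => ∏ i, h i (y i)) :=
    Finset.measurable_prod _ fun i _ => (hh i).comp (measurable_pi_apply i)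
  calc ∫⁻ x : E n, ∏ i, h i (co (A i) x) = ∫⁻ x : E n, ∏ i, h i (Θ x i) := rfl
    _ = ∫⁻ y, ∏ i, h i (y i) ∂((volume : Measure (E n)).map Θ) := by
        rw [lintegral_map hm Θ.continuous.measurable]
    _ = _ := by
        rw [hsm, lintegral_smul_measure]
        have := Pool.Agent.Q184.BLK.lintegral_pi_prod
          (fun i => (volume : Measure (Fin (d i) → ℝ))) h hh (fun _ => 0)
        rw [volume_pi, this]
        rfl

/-- Functions of at most two variables are co-monotone. -/
theorem comonotone_of_le_two {d : ℕ} (hd : d ≤ 2) (g : (Fin d → ℝ) → ℝ) : Comonotone g := by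
  refine ⟨fun _ => 0, fun _ _ => 0, ?_, fun _ => measurable_const, fun _ _ _ _ => rfl, ?_⟩
  · intro k
    exact (Fintype.card_subtype_le _).trans (by simpa using hd)
  · intro x y h _
    have : x = y := funext fun i => h i rfl
    rw [this]

/-- **The Kakeya maximal estimate for Brascamp–Lieb products**, with constants that depend on the
dimension only. -/
theorem result (n : ℕ) (hn : 2 ≤ n) : ∃ (C : ℝ) (c : ℕ), 0 < C ∧
    -- (1) Brascamp–Lieb products
    (∀ (k : ℕ) (d : Fin k → ℕ) (A : ∀ i, Fin (d i) → E n) (p : Fin k → ℝ) (B : ℝ≥0∞)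
      (g : ∀ i, (Fin (d i) → ℝ) → ℝ) (δ : ℝ), (∀ i, 0 < d i) → (∀ i, Orthonormal ℝ (A i)) →
      (∀ i, 0 < p i) → ∑ i, p i * d i = n → BrascampLieb A p B →
      (∀ i, Measurable (g i)) → (∀ i, Comonotone (g i)) → 0 < δ → δ < 1 →
      ∫⁻ e : sphere (0 : E n) 1, kakeyaMax δ (fun x => ∏ i, g i (co (A i) x)) e ^ n
          ∂(volume : Measure (E n)).toSphere
        ≤ ENNReal.ofReal (C * (1 + Real.log (1 / δ)) ^ c) *
          (B * ∏ i, (∫⁻ y, ‖g i y‖ₑ ^ (n / p i)) ^ p i)) ∧
    -- (2) complementary projections: the conjectured estimate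
    (∀ (k : ℕ) (d : Fin k → ℕ) (A : ∀ i, Fin (d i) → E n) (g : ∀ i, (Fin (d i) → ℝ) → ℝ) (δ : ℝ),
      (∀ i, 0 < d i) → (∀ i, Orthonormal ℝ (A i)) → ∑ i, d i = n →
      (∀ x : E n, (∀ i, co (A i) x = 0) → x = 0) →
      (∀ i, Measurable (g i)) → (∀ i, Comonotone (g i)) → 0 < δ → δ < 1 →
      ∫⁻ e : sphere (0 : E n) 1, kakeyaMax δ (fun x => ∏ i, g i (co (A i) x)) e ^ n
          ∂(volume : Measure (E n)).toSphere
        ≤ ENNReal.ofReal (C * (1 + Real.log (1 / δ)) ^ c) *
          ∫⁻ x, ‖∏ i, g i (co (A i) x)‖ₑ ^ n) ∧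
    -- all functions of one or two variables are admitted as factors
    (∀ (d : ℕ) (g : (Fin d → ℝ) → ℝ), d ≤ 2 → Comonotone g) := by
  obtain ⟨m, rfl⟩ : ∃ m, n = m + 1 := ⟨n - 1, by omega⟩
  obtain ⟨C, c, hC, hmain⟩ := Pool.Agent.Q184.BLK.main_BL m
  refine ⟨C, c, hC, ?_, ?_, fun d g hd => comonotone_of_le_two hd g⟩
  · intro k d A p B g δ hd hA hp hpd hBL hg hgc hδ hδ1
    exact hmain k d A p B g δ hd hA hp hpd hBL hg hgc hδ hδ1
  · intro k d A g δ hd hA hdn hinj hg hgc hδ hδ1
    obtain ⟨κ, hκ⟩ := change A hdn hinj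
    have hBL : BrascampLieb A (fun _ => 1) κ := by
      intro h hh
      simp only [ENNReal.rpow_one]
      exact (hκ h hh).le
    have hpd : ∑ i, (1 : ℝ) * d i = (m + 1 : ℕ) := by
      simp only [one_mul]
      rw [← hdn]
      push_cast
      rfl
    refine (hmain k d A (fun _ => 1) κ g δ hd hA (fun _ => one_pos) hpd hBL hg hgc hδ hδ1).trans
      (le_of_eq ?_)
    congr 1
    simp only [ENNReal.rpow_one, div_one]
    rw [← hκ _ (fun i => (hg i).enorm.pow_const _)]
    apply lintegral_congr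
    intro x
    rw [← ofReal_norm, norm_prod, ENNReal.ofReal_prod_of_nonneg (fun _ _ => norm_nonneg _),
      ← Finset.prod_pow]
    apply Finset.prod_congr rfl
    intro i _
    rw [ofReal_norm, ENNReal.rpow_natCast]

end Pool.Agent.Results.MP_5168f5_an.BrascampLiebProducts
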