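import Pool.Agent.Q201.KM.Diff
import Pool.Agent.Q201.KM.SuperFun
import Pool.Agent.Q201.KM.Sharp

set_option autoImplicit false

/-!
# MP_5168f5: the full Kakeya maximal function and difference sets

For every measurable set `A` in `ℝ^n` the `L^n` norm of the Kakeya maximal function of the
indicator of `A` is bounded by the measure of the difference set `A - A`, without any loss and for
tubes of any width.  Hence the estimates of the Kakeya maximal conjecture hold for functions whose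
superlevel sets are covered by `N` sets with small difference sets, for instance for functions whose
superlevel sets are unions of `N` convex sets: without loss for exponents `p > n`, and with a
loss `(1 + log (1/δ)) ^ (n - 1)`, which is sharp already for functions with convex superlevel sets,
for `p = n`.
-/

open MeasureTheory Set Filter Topology ENNReal NNReal Metric
open scoped Pointwise

namespace Pool.Agent.Results.MP_5168f5_an.DifferenceSets

/-- The closed tube of length `1` and radius `δ` with centre `b` and axis direction `e`. -/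
def tube {n : ℕ} (δ : ℝ) (e b : EuclideanSpace ℝ (Fin n)) : Set (EuclideanSpace ℝ (Fin n)) :=
  {y | |inner ℝ (y - b) e| ≤ 1 / 2 ∧ ‖(y - b) - (inner ℝ (y - b) e : ℝ) • e‖ ≤ δ}

/-- The Kakeya maximal function. -/
noncomputable def kakeyaMax {n : ℕ} (δ : ℝ) (f : EuclideanSpace ℝ (Fin n) → ℝ)
    (e : EuclideanSpace ℝ (Fin n)) : ℝ≥0∞ :=
  ⨆ a : EuclideanSpace ℝ (Fin n), (volume (tube δ e a))⁻¹ * ∫⁻ y in tube δ e a, ‖f y‖ₑ

/-- Surface measure of the unit sphere. -/
noncomputable abbrev surf (n : ℕ) : Measure (sphere (0 : EuclideanSpace ℝ (Fin n)) 1) :=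
  (volume : Measure (EuclideanSpace ℝ (Fin n))).toSphere

/-- Every superlevel set `{|f| > s}`, `s > 0`, is covered by `N` measurable sets `A i` such that
the sum of the measures of the difference sets `A i - A i` is at most `K |{|f| > s}|`. -/
def Covered {n : ℕ} (N : ℕ) (K : ℝ≥0∞) (f : EuclideanSpace ℝ (Fin n) → ℝ) : Prop :=
  ∀ s : ℝ, 0 < s → ∃ A : Fin N → Set (EuclideanSpace ℝ (Fin n)),
    (∀ i, NullMeasurableSet (A i)) ∧ {x | s < |f x|} ⊆ ⋃ i, A i ∧
      ∑ i, volume (A i - A i) ≤ K * volume {x | s < |f x|}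

/-- Every superlevel set `{|f| > s}`, `s > 0`, is a union of at most `N` convex sets. -/
def UnionOfConvex {n : ℕ} (N : ℕ) (f : EuclideanSpace ℝ (Fin n) → ℝ) : Prop :=
  ∀ s : ℝ, 0 < s → ∃ A : Fin N → Set (EuclideanSpace ℝ (Fin n)),
    (∀ i, Convex ℝ (A i)) ∧ {x | s < |f x|} = ⋃ i, A i

open Pool.Agent.Q201.KM in
theorem covered_enn {n : ℕ} {N : ℕ} {K : ℝ≥0∞} {f : EuclideanSpace ℝ (Fin n) → ℝ}
    (h : Covered N K f) :
    ∀ s : ℝ≥0∞, s ≠ 0 → s ≠ ∞ → ∃ A : Fin N → Set (E n), (∀ i, NullMeasurableSet (A i)) ∧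
      {x | s < ‖f x‖ₑ} ⊆ ⋃ i, A i ∧ ∑ i, volume (A i - A i) ≤ K * volume {x | s < ‖f x‖ₑ} := by
  intro s hs0 hst
  have h1 : {x | s < ‖f x‖ₑ} = {x | s.toReal < |f x|} := by
    ext x
    simp only [mem_ofPred_eq]
    rw [← ofReal_norm, Real.norm_eq_abs]
    exact ENNReal.lt_ofReal_iff_toReal_lt hst
  rw [h1]
  exact h s.toReal (ENNReal.toReal_pos hs0 hst)

theorem exists_level {δ : ℝ} (hδ : 0 < δ) (hδ1 : δ < 1) : ∃ J : ℕ, 1 / δ ≤ 2 ^ J ∧
    (J:ℝ) + 1 ≤ 2 * (1 + Real.log (1 / δ)) := by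
  have h1 : 1 ≤ 1 / δ := by rw [le_div_iff₀ hδ]; linarith
  obtain ⟨J, hJ1, hJ2⟩ := exists_nat_pow_near (x := 1 / δ) (y := (2:ℝ)) h1 (by norm_num)
  refine ⟨J + 1, hJ2.le, ?_⟩
  have h3 : Real.log (2 ^ J) ≤ Real.log (1 / δ) := Real.log_le_log (by positivity) hJ1
  rw [Real.log_pow] at h3
  have h4 : 1 / 2 ≤ Real.log 2 := by
    have := Real.log_two_gt_d9; linarith
  have h5 : (0:ℝ) ≤ J := Nat.cast_nonneg J
  have h6 : (J:ℝ) * (1 / 2) ≤ J * Real.log 2 := by gcongr
  push_cast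
  linarith

/-- **Kakeya maximal estimates through difference sets.**

1. For all measurable sets `A` and all `δ > 0`: `∫ ((1_A)^*_δ)^n ≤ n |A - A|`.
2. Exponents `p > n`: no loss, for all `δ > 0`.
3. The critical exponent `p = n`: the loss `(1 + log (1/δ)) ^ (n - 1)`.
4. The hypothesis holds with `K = N * (2n choose n)` if all superlevel sets are unions of `N` convex
   sets.
5. The power `n - 1` of the logarithm cannot be lowered, already for functions all of whose
   superlevel sets are convex. -/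
theorem result (n : ℕ) (hn : 2 ≤ n) :
    (∀ (A : Set (EuclideanSpace ℝ (Fin n))) (δ : ℝ), NullMeasurableSet A → 0 < δ →
      ∫⁻ e, kakeyaMax δ (A.indicator 1) (e : EuclideanSpace ℝ (Fin n)) ^ n ∂(surf n) ≤
        n * volume (A - A)) ∧
    (∀ p : ℝ, (n:ℝ) < p → ∃ C : ℝ, 0 < C ∧
      ∀ (N : ℕ) (K : ℝ≥0∞) (δ : ℝ) (f : EuclideanSpace ℝ (Fin n) → ℝ), 1 ≤ N → 1 ≤ K → 0 < δ →
        Measurable f → Covered N K f →
        ∫⁻ e, kakeyaMax δ f (e : EuclideanSpace ℝ (Fin n)) ^ p ∂(surf n) ≤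
          ENNReal.ofReal C * ((N:ℝ≥0∞) ^ (n - 1) * K) * ∫⁻ y, ‖f y‖ₑ ^ p) ∧
    (∃ C : ℝ, 0 < C ∧
      ∀ (N : ℕ) (K : ℝ≥0∞) (δ : ℝ) (f : EuclideanSpace ℝ (Fin n) → ℝ), 1 ≤ N → 1 ≤ K → 0 < δ →
        δ < 1 → Measurable f → Covered N K f →
        ∫⁻ e, kakeyaMax δ f (e : EuclideanSpace ℝ (Fin n)) ^ n ∂(surf n) ≤
          ENNReal.ofReal (C * (1 + Real.log (1 / δ)) ^ (n - 1)) * ((N:ℝ≥0∞) ^ (n - 1) * K) *
            ∫⁻ y, ‖f y‖ₑ ^ n) ∧
    (∀ (N : ℕ) (f : EuclideanSpace ℝ (Fin n) → ℝ), UnionOfConvex N f →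
      Covered N (N * ((2 * n).choose n : ℝ≥0∞)) f) ∧
    (∃ c : ℝ, 0 < c ∧ ∀ δ : ℝ, 0 < δ → δ ≤ 1 / 2 → ∃ f : EuclideanSpace ℝ (Fin n) → ℝ,
      Measurable f ∧ UnionOfConvex 1 f ∧ ∫⁻ y, ‖f y‖ₑ ^ n ≠ 0 ∧ ∫⁻ y, ‖f y‖ₑ ^ n ≠ ∞ ∧
      ENNReal.ofReal (c * (Real.log (1 / δ)) ^ (n - 1)) * ∫⁻ y, ‖f y‖ₑ ^ n ≤
        ∫⁻ e, kakeyaMax δ f (e : EuclideanSpace ℝ (Fin n)) ^ n ∂(surf n)) := by
  obtain ⟨m, rfl⟩ : ∃ m, n = m + 1 := ⟨n - 1, by omega⟩
  have hm1 : m + 1 - 1 = m := by omega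
  rw [hm1]
  refine ⟨?_, ?_, ?_, ?_, ?_⟩
  · intro A δ hA hδ
    set D := toMeasurable volume (A - A) with hD
    have hDm : MeasurableSet D := measurableSet_toMeasurable _ _
    have hDv : volume D = volume (A - A) := measure_toMeasurable _
    have hpt : ∀ e : sphere (0 : EuclideanSpace ℝ (Fin (m + 1))) 1,
        kakeyaMax δ (A.indicator 1) (e : EuclideanSpace ℝ (Fin (m + 1))) ≤
          volume {t : ℝ | 0 < t ∧ t • (e : EuclideanSpace ℝ (Fin (m + 1))) ∈ D} := by
      intro e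
      have he : ‖(e : EuclideanSpace ℝ (Fin (m + 1)))‖ = 1 := by simp
      unfold kakeyaMax
      apply iSup_le
      intro b
      have hav := Pool.Agent.Q201.KM.avg_le hA (fun x hx y hy =>
        subset_toMeasurable volume (A - A) (sub_mem_sub hx hy)) he δ b
      have h0 : volume (tube δ (e : EuclideanSpace ℝ (Fin (m + 1))) b) ≠ 0 := by
        obtain ⟨c, hc, hvol⟩ := Pool.Agent.H742R2.Kk.volume_tube m
        have h1 := hvol δ e b hδ he
        have h2 : 0 < ENNReal.ofReal (c * δ ^ m) := by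
          rw [ENNReal.ofReal_pos]; positivity
        exact (h2.trans_le h1).ne'
      have ht : volume (tube δ (e : EuclideanSpace ℝ (Fin (m + 1))) b) ≠ ∞ :=
        Pool.Agent.Q201.KM.tb_volume_ne_top δ he b
      have hint : ∫⁻ y in tube δ (e : EuclideanSpace ℝ (Fin (m + 1))) b,
          ‖A.indicator (1 : EuclideanSpace ℝ (Fin (m + 1)) → ℝ) y‖ₑ =
          volume (tube δ (e : EuclideanSpace ℝ (Fin (m + 1))) b ∩ A) := by
        have h1 : ∀ y, ‖A.indicator (1 : EuclideanSpace ℝ (Fin (m + 1)) → ℝ) y‖ₑ =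
            A.indicator (fun _ => (1:ℝ≥0∞)) y := by
          intro y
          by_cases hy : y ∈ A
          · rw [indicator_of_mem hy, indicator_of_mem hy]; simp
          · rw [indicator_of_notMem hy, indicator_of_notMem hy]; simp
        simp_rw [h1]
        rw [lintegral_indicator₀ (hA.mono_ac Measure.restrict_le_self.absolutelyContinuous)]
        rw [setLIntegral_const, one_mul,
          Measure.restrict_apply₀ (hA.mono_ac Measure.restrict_le_self.absolutelyContinuous),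
          inter_comm]
      rw [hint]
      calc (volume (tube δ (e : EuclideanSpace ℝ (Fin (m + 1))) b))⁻¹ *
            volume (tube δ (e : EuclideanSpace ℝ (Fin (m + 1))) b ∩ A)
          ≤ (volume (tube δ (e : EuclideanSpace ℝ (Fin (m + 1))) b))⁻¹ *
            (volume {t : ℝ | 0 < t ∧ t • (e : EuclideanSpace ℝ (Fin (m + 1))) ∈ D} *
              volume (tube δ (e : EuclideanSpace ℝ (Fin (m + 1))) b)) := by
            gcongr
            exact hav
        _ = _ := by
            rw [mul_comm (volume {t : ℝ | 0 < t ∧ t • (e : EuclideanSpace ℝ (Fin (m + 1))) ∈ D}),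
              ← mul_assoc, ENNReal.inv_mul_cancel h0 ht, one_mul]
    calc ∫⁻ e, kakeyaMax δ (A.indicator 1) (e : EuclideanSpace ℝ (Fin (m + 1))) ^ (m + 1)
          ∂(surf (m + 1))
        ≤ ∫⁻ e : sphere (0 : EuclideanSpace ℝ (Fin (m + 1))) 1,
          (volume {t : ℝ | 0 < t ∧ t • (e : EuclideanSpace ℝ (Fin (m + 1))) ∈ D}) ^ (m + 1)
          ∂(surf (m + 1)) := by
          apply lintegral_mono
          intro e
          simp only
          gcongr
          exact hpt e
      _ ≤ (m + 1) * volume D := Pool.Agent.Q201.KM.ray_bound m hDm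
      _ = _ := by rw [hDv]; push_cast; rfl
  · intro p hp
    push_cast at hp
    obtain ⟨C, hC, h⟩ := Pool.Agent.Q201.KM.fun_est_super m p hp
    refine ⟨C.toReal + 1, by positivity, ?_⟩
    intro N K δ f hN hK hδ hf hcov
    refine (h N K δ (fun y => ‖f y‖ₑ) hN hK hδ hf.enorm (fun y => by simp)
      (covered_enn hcov)).trans ?_
    gcongr
    calc C = ENNReal.ofReal C.toReal := (ENNReal.ofReal_toReal hC).symm
      _ ≤ _ := ENNReal.ofReal_le_ofReal (by linarith)
  · obtain ⟨C, hC, h⟩ := Pool.Agent.Q201.KM.fun_est m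
    refine ⟨2 ^ m * (C.toReal + 1), by positivity, ?_⟩
    intro N K δ f hN hK hδ hδ1 hf hcov
    obtain ⟨J, hJ1, hJ2⟩ := exists_level hδ hδ1
    refine (h N K δ (fun y => ‖f y‖ₑ) J hN hK hδ hJ1 hf.enorm (covered_enn hcov)).trans ?_
    have hlog : 0 ≤ Real.log (1 / δ) := Real.log_nonneg (by rw [le_div_iff₀ hδ]; linarith)
    have h1 : C * ((J : ℝ≥0∞) + 1) ^ m ≤
        ENNReal.ofReal (2 ^ m * (C.toReal + 1) * (1 + Real.log (1 / δ)) ^ m) := by
      have e1 : ((J : ℝ≥0∞) + 1) = ENNReal.ofReal ((J:ℝ) + 1) := by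
        rw [ENNReal.ofReal_add (by positivity) (by norm_num)]; simp
      rw [e1, ← ENNReal.ofReal_pow (by positivity)]
      calc C * ENNReal.ofReal (((J:ℝ) + 1) ^ m) =
            ENNReal.ofReal C.toReal * ENNReal.ofReal (((J:ℝ) + 1) ^ m) := by
            rw [ENNReal.ofReal_toReal hC]
        _ = ENNReal.ofReal (C.toReal * ((J:ℝ) + 1) ^ m) := by
            rw [ENNReal.ofReal_mul (by positivity)]
        _ ≤ _ := by
            apply ENNReal.ofReal_le_ofReal
            calc C.toReal * ((J:ℝ) + 1) ^ m ≤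
                  (C.toReal + 1) * (2 * (1 + Real.log (1 / δ))) ^ m := by
                  gcongr
                  linarith
              _ = _ := by rw [mul_pow]; ring
    gcongr
  · intro N f hf s hs
    obtain ⟨A, hA, hAe⟩ := hf s hs
    refine ⟨A, fun i => (hA i).nullMeasurableSet volume, hAe.subset, ?_⟩
    calc ∑ i, volume (A i - A i) ≤ ∑ i : Fin N,
          ((2 * (m + 1)).choose (m + 1) : ℝ≥0∞) * volume {x | s < |f x|} := by
          apply Finset.sum_le_sum
          intro i _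
          refine (Pool.Agent.Q201.KM.rs_convex (hA i)).trans ?_
          gcongr
          rw [hAe]
          exact subset_iUnion _ i
      _ = _ := by
          rw [Finset.sum_const, Finset.card_univ, Fintype.card_fin, nsmul_eq_mul, mul_assoc]
  · refine ⟨(16 ^ (m + 1))⁻¹, by positivity, ?_⟩
    intro δ hδ hδ1
    refine ⟨Pool.Agent.Q201.KM.ff m δ, Pool.Agent.Q201.KM.ff_meas m δ, ?_, ?_, ?_, ?_⟩
    · intro s hs
      refine ⟨fun _ => {x | s < |Pool.Agent.Q201.KM.ff m δ x|}, fun _ =>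
        Pool.Agent.Q201.KM.ff_convex m hδ hs, ?_⟩
      rw [iUnion_const]
    · have h1 : ∀ y ∈ ball (0 : EuclideanSpace ℝ (Fin (m + 1))) 1,
          (1:ℝ≥0∞) ≤ ‖Pool.Agent.Q201.KM.ff m δ y‖ₑ ^ (m + 1) := by
        intro y hy
        rw [mem_ball, dist_zero_right] at hy
        rw [Real.enorm_eq_ofReal (Pool.Agent.Q201.KM.ff_nonneg m hδ y)]
        apply one_le_pow₀
        rw [ENNReal.one_le_ofReal]
        unfold Pool.Agent.Q201.KM.ff
        rw [if_pos hy.le]
        apply (one_le_inv₀ (lt_max_of_lt_right hδ)).2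
        exact max_le hy.le (by linarith)
      have h2 : volume (ball (0 : EuclideanSpace ℝ (Fin (m + 1))) 1) ≤
          ∫⁻ y, ‖Pool.Agent.Q201.KM.ff m δ y‖ₑ ^ (m + 1) := by
        calc volume (ball (0 : EuclideanSpace ℝ (Fin (m + 1))) 1) =
              ∫⁻ _y in ball (0 : EuclideanSpace ℝ (Fin (m + 1))) 1, 1 := by simp
          _ ≤ ∫⁻ y in ball (0 : EuclideanSpace ℝ (Fin (m + 1))) 1,
              ‖Pool.Agent.Q201.KM.ff m δ y‖ₑ ^ (m + 1) :=
              setLIntegral_mono' measurableSet_ball h1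
          _ ≤ _ := setLIntegral_le_lintegral _ _
      exact ((measure_ball_pos volume 0 one_pos).trans_le h2).ne'
    · have h1 : 1 ≤ 1 / δ := by rw [le_div_iff₀ hδ]; linarith
      obtain ⟨J, hJ1, hJ2⟩ := exists_nat_pow_near (x := 1 / δ) (y := (2:ℝ)) h1 (by norm_num)
      refine ((Pool.Agent.Q201.KM.norm_upper m hδ (by linarith) J hJ2.le).trans_lt ?_).ne
      apply ENNReal.mul_lt_top _ measure_ball_lt_top
      apply ENNReal.mul_lt_top
      · exact ENNReal.add_lt_top.2 ⟨ENNReal.natCast_lt_top _, ENNReal.one_lt_top⟩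
      · exact ENNReal.pow_lt_top (by norm_num)
    · exact Pool.Agent.Q201.KM.sharp m hδ hδ1

end Pool.Agent.Results.MP_5168f5_an.DifferenceSets
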