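import Pool.Agent.Q184.RK.Main

set_option autoImplicit false

/-!
# The Kakeya maximal estimate for almost all matchings of positions with directions

`n ≥ 2`.  In its linearised and discretised form the Kakeya maximal conjecture bounds the averages of
`|f|` over tubes `T_i` with `δ`-separated directions `e i` and ARBITRARY centres `a i`, for arbitrary
functions `f`:  `∑ i, δ^(n-1) (avg_{T_i} f)^n ≤ C_ε δ^(-ε) ∫ |f|^n`.

Take arbitrary `δ`-separated directions and an arbitrary list of as many centres, and match them at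
random.  We prove that for all but a proportion `η` of the matchings the estimate holds, with
logarithmic losses only, for ALL functions `f` at once: at the critical exponent with
`(1 + log (1/δ))^(n-1)`, and for `2 ≤ p ≤ n` with the sharp power `δ^(-(n-p))`; from `L^p` to `L^p` for
all directions except at most `η δ^(-(n-1))` of them (they depend on the matching only), and from `L^p`
to `L^(p/2)` for all directions.  The same holds for random centres which are only pairwise nearly
independent, with an arbitrary law, for instance for a random member of the family of the `N²` affine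
matchings.

Proof: with `μ` the number of tubes through `x` and `ρ_i = max(|x - a i|, δ)` Hölder's inequality gives
`(∫_{T_i} f)^n ≤ (∫_{T_i} f^n / μ) (∫_{T_i} μ ρ_i^(n-2)) (∫_{T_i} 1/ρ_i)^(n-2)`; the sum of the first factors is at
most `∫ f^n`, and the sum of the second factors, which does not depend on `f`, has mean
`O(1 + log (1/δ))`.
-/

open MeasureTheory Set
open scoped ENNReal

namespace Pool.Agent.Results.MP_5168f5_an.RandomMatchings

/-- The space `ℝ^n`. -/
abbrev Rn (n : ℕ) : Type := EuclideanSpace ℝ (Fin n)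

/-- The tube `T_e^δ(a)` of the problem: the closed cylinder of length `1` and radius `δ` with centre `a`
and axis in direction `e`. -/
def tube {n : ℕ} (δ : ℝ) (a e : Rn n) : Set (Rn n) :=
  {y | |inner ℝ (y - a) e| ≤ 1 / 2 ∧ ‖(y - a) - (inner ℝ (y - a) e) • e‖ ≤ δ}

/-- `0 < δ < 1` and `e` is a `δ`-separated family of unit vectors. -/
def Separated {n : ℕ} {ι : Type} (δ : ℝ) (e : ι → Rn n) : Prop :=
  0 < δ ∧ δ < 1 ∧ (∀ i, ‖e i‖ = 1) ∧ ∀ i j, i ≠ j → δ ≤ ‖e i - e j‖

/-- The average of `|f|` over the tube. -/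
noncomputable def avg {n : ℕ} (f : Rn n → ℝ) (δ : ℝ) (a e : Rn n) : ℝ≥0∞ :=
  (∫⁻ y in tube δ a e, ‖f y‖ₑ) / volume (tube δ a e)

/-- The integral of `|f|^p`. -/
noncomputable def normp {n : ℕ} (f : Rn n → ℝ) (p : ℝ) : ℝ≥0∞ := ∫⁻ x, ‖f x‖ₑ ^ p

/-- The estimate from `L^p` to `L^(p/s)` for the tubes with centres `a i` and directions `e i`, `i ∈ S`,
for all `p ≥ 2` and all functions `f`, with the constant
`C p * M * (1 + log (1/δ))^(min p n - 1) * δ^(-max(0, n - p))`. -/
def Estimate {n : ℕ} {ι : Type} (C : ℝ → ℝ) (M : ℝ) (S : Finset ι) (s δ : ℝ) (a e : ι → Rn n) :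
    Prop :=
  ∀ p : ℝ, 2 ≤ p → ∀ f : Rn n → ℝ, AEMeasurable f volume →
    (∑ i ∈ S, ENNReal.ofReal (δ ^ (n - 1)) * avg f δ (a i) (e i) ^ (p / s)) ^ s ≤
      ENNReal.ofReal (C p * M * (1 + Real.log (1 / δ)) ^ (min p (n : ℝ) - 1) *
        δ ^ (-(max 0 ((n : ℝ) - p)))) * normp f p

/-- The tubes with centres `a i` and directions `e i` satisfy the estimate from `L^p` to `L^p` outside a
set of at most `η δ^(-(n-1))` indices, and from `L^p` to `L^(p/2)` for all indices. -/
def Good {n : ℕ} {ι : Type} [Fintype ι] (C : ℝ → ℝ) (A η δ : ℝ) (a e : ι → Rn n) : Prop :=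
  (∃ S : Finset ι, ((Fintype.card ι : ℝ) - S.card) * δ ^ (n - 1) ≤ η ∧
    Estimate C (A / η ^ 2) S 1 δ a e) ∧
  Estimate C (A / η) Finset.univ 2 δ a e

/-- The random positions `a x i` are **pairwise nearly independent**: one of them is in a measurable
set `U` with probability at most `A ν(U)`, and two of them are in `U` and in `V` with probability at
most `A ν(U) ν(V)`. -/
def NearlyIndependent {n : ℕ} {ι Ω : Type} [MeasurableSpace Ω] (P : Measure Ω)
    (ν : Measure (Rn n)) (A : ℝ) (a : Ω → ι → Rn n) : Prop :=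
  (∀ i, Measurable (fun x => a x i)) ∧
  (∀ i (U : Set (Rn n)), MeasurableSet U → P {x | a x i ∈ U} ≤ ENNReal.ofReal A * ν U) ∧
  (∀ i j, i ≠ j → ∀ U V : Set (Rn n), MeasurableSet U → MeasurableSet V →
    P {x | a x i ∈ U ∧ a x j ∈ V} ≤ ENNReal.ofReal A * (ν U * ν V))

/-- A finite family `Γ` of assignments of the places `κ` to the indices `ι` in which no value and no
pair of values is more than `A` times as frequent as for a uniform choice. -/
def Balanced {ι κ Γ : Type} [Fintype κ] [Fintype Γ] (A : ℝ) (π : Γ → ι → κ) : Prop :=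
  (∀ i k, (Nat.card {γ // π γ i = k} : ℝ) * Nat.card κ ≤ A * Nat.card Γ) ∧
  ∀ i j, i ≠ j → ∀ k l, (Nat.card {γ // π γ i = k ∧ π γ j = l} : ℝ) * (Nat.card κ) ^ 2 ≤
    A * Nat.card Γ

/-- **The Kakeya maximal estimate for almost all matchings of positions with directions.** -/
theorem result (n : ℕ) (hn : 2 ≤ n) : ∃ C : ℝ → ℝ, (∀ p, 0 < C p) ∧
    -- (1) all matchings
    (∀ (ι : Type) [Fintype ι] (e : ι → Rn n) (δ : ℝ), Separated δ e →
      ∀ (b : ι → Rn n) (η : ℝ), 0 < η → η ≤ 1 →
        (Nat.card {τ : Equiv.Perm ι // ¬ Good C 2 η δ (fun i => b (τ i)) e} : ℝ) ≤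
          η * Nat.card (Equiv.Perm ι)) ∧
    -- (2) pairwise nearly independent random positions, of arbitrary law
    (∀ (Ω : Type) [MeasurableSpace Ω] (P : Measure Ω) [IsProbabilityMeasure P]
      (ν : Measure (Rn n)) [IsProbabilityMeasure ν] (A : ℝ), 1 ≤ A →
      ∀ (ι : Type) [Fintype ι] (a : Ω → ι → Rn n), NearlyIndependent P ν A a →
      ∀ (e : ι → Rn n) (δ : ℝ), Separated δ e → ∀ η : ℝ, 0 < η → η ≤ 1 →
        P {x | ¬ Good C A η δ (a x) e} ≤ ENNReal.ofReal η) ∧
    -- (3) balanced finite families of assignments of arbitrary places to the directions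
    (∀ (ι κ Γ : Type) [Fintype ι] [Fintype κ] [Nonempty κ] [Fintype Γ] [Nonempty Γ] (A : ℝ),
      1 ≤ A → ∀ π : Γ → ι → κ, Balanced A π → ∀ (e : ι → Rn n) (δ : ℝ), Separated δ e →
      ∀ (b : κ → Rn n) (η : ℝ), 0 < η → η ≤ 1 →
        (Nat.card {γ // ¬ Good C A η δ (fun i => b (π γ i)) e} : ℝ) ≤ η * Nat.card Γ) ∧
    -- (4) in particular the affine matchings
    (∀ (F : Type) [Field F] [Fintype F] (e : F → Rn n) (δ : ℝ), Separated δ e →
      ∀ (b : F → Rn n) (η : ℝ), 0 < η → η ≤ 1 →
        (Nat.card {z : F × F // ¬ Good C 1 η δ (fun x => b (z.1 * x + z.2)) e} : ℝ) ≤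
          η * Nat.card (F × F)) := by
  classical
  obtain ⟨C, hC, h⟩ := Pool.Agent.Q184.RK.most hn
  have hgood : ∀ (ι : Type) [Fintype ι] (A η δ : ℝ) (a e : ι → Rn n),
      Pool.Agent.Q184.RK.GoodF C A η δ a e → Good C A η δ a e := by
    intro ι _ A η δ a e hG
    obtain ⟨⟨S, hS, h1⟩, h2⟩ := hG
    refine ⟨⟨S, ?_, fun p hp f hf => h1 p hp (fun x => ‖f x‖ₑ) hf.enorm⟩,
      fun p hp f hf => h2 p hp (fun x => ‖f x‖ₑ) hf.enorm⟩
    rwa [Finset.cast_card_sdiff (Finset.subset_univ S), Finset.card_univ] at hS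
  have h2 : ∀ (Ω : Type) [MeasurableSpace Ω] (P : Measure Ω) [IsProbabilityMeasure P]
      (ν : Measure (Rn n)) [IsProbabilityMeasure ν] (A : ℝ), 1 ≤ A →
      ∀ (ι : Type) [Fintype ι] (a : Ω → ι → Rn n),
      Pool.Agent.Y789.KM.Pairwise' P ν (ENNReal.ofReal A) a →
      ∀ (e : ι → Rn n) (δ : ℝ), Separated δ e → ∀ η : ℝ, 0 < η → η ≤ 1 →
        P {x | ¬ Good C A η δ (a x) e} ≤ ENNReal.ofReal η := by
    intro Ω _ P _ ν _ A hA ι _ a ha e δ hs η hη hη1
    refine le_trans (measure_mono ?_)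
      (h Ω P ν A hA ι a ha e δ hs.1 hs.2.1 hs.2.2.1 hs.2.2.2 η hη hη1)
    intro x hx hG
    exact hx (hgood ι A η δ (a x) e hG)
  refine ⟨C, hC, ?_, ?_, ?_, ?_⟩
  · intro ι _ e δ hs b η hη hη1
    rcases isEmpty_or_nonempty ι with hι | hι
    · have h0 : ∀ τ : Equiv.Perm ι, Good C 2 η δ (fun i => b (τ i)) e := by
        intro τ
        refine ⟨⟨∅, ?_, ?_⟩, ?_⟩
        · simp [hη.le]
        · intro p _ f _
          simp
        · intro p _ f _
          simp
      have h3 : IsEmpty {τ : Equiv.Perm ι // ¬ Good C 2 η δ (fun i => b (τ i)) e} :=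
        ⟨fun τ => τ.2 (h0 τ.1)⟩
      rw [Nat.card_of_isEmpty]
      push_cast
      positivity
    · let _ : MeasurableSpace ι := ⊤
      let _ : MeasurableSpace (Equiv.Perm ι) := ⊤
      have _ : MeasurableSingletonClass ι := ⟨fun _ => trivial⟩
      have _ : MeasurableSingletonClass (Equiv.Perm ι) := ⟨fun _ => trivial⟩
      have _ : IsProbabilityMeasure ((Pool.Agent.Y789.KM.unif ι).map b) :=
        Measure.isProbabilityMeasure_map measurable_from_top.aemeasurable
      have h3 := (Pool.Agent.Y789.KM.perm_pairwise (ι := ι)).map (b := b) measurable_from_top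
      exact Pool.Agent.Y789.KM.card_bad hη.le
        (h2 (Equiv.Perm ι) _ _ 2 (by norm_num) ι _ h3 e δ hs η hη hη1)
  · intro Ω _ P _ ν _ A hA ι _ a ha e δ hs η hη hη1
    exact h2 Ω P ν A hA ι a ⟨ha.1, ha.2.1, ha.2.2⟩ e δ hs η hη hη1
  · intro ι κ Γ _ _ _ _ _ A hA π hπ e δ hs b η hη hη1
    let _ : MeasurableSpace κ := ⊤
    let _ : MeasurableSpace Γ := ⊤
    have _ : MeasurableSingletonClass κ := ⟨fun _ => trivial⟩
    have _ : MeasurableSingletonClass Γ := ⟨fun _ => trivial⟩
    have _ : IsProbabilityMeasure ((Pool.Agent.Y789.KM.unif κ).map b) :=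
      Measure.isProbabilityMeasure_map measurable_from_top.aemeasurable
    have h3 := (Pool.Agent.Y789.KM.pairwise_of_count (by linarith) π hπ.1 hπ.2).map (b := b)
      measurable_from_top
    exact Pool.Agent.Y789.KM.card_bad hη.le (h2 Γ _ _ A hA ι _ h3 e δ hs η hη hη1)
  · intro F _ _ e δ hs b η hη hη1
    let _ : MeasurableSpace F := ⊤
    have _ : MeasurableSingletonClass F := ⟨fun _ => trivial⟩
    have _ : IsProbabilityMeasure ((Pool.Agent.Y789.KM.unif F).map b) :=
      Measure.isProbabilityMeasure_map measurable_from_top.aemeasurable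
    have h3 := (Pool.Agent.Y789.KM.affine_pairwise (F := F) (fun x : F => x)
      (fun _ _ h => h)).map (b := b) measurable_from_top
    exact Pool.Agent.Y789.KM.card_bad hη.le (h2 (F × F) _ _ 1 le_rfl F _ h3 e δ hs η hη hη1)

end Pool.Agent.Results.MP_5168f5_an.RandomMatchings
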