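import Pool.Agent.TH426.Kt.Main

set_option autoImplicit false
set_option maxHeartbeats 1000000

/-!
# MP_5168f5: the Kakeya maximal estimates are stable under skew products; towers of families

Work in `ℝ^{d+1} = ℝ^d × ℝ` (`Space d`), `n = d + 1`.  For `v` in the closed unit ball of `ℝ^d` the
line number `v` of the family given by `b : ℝ^d → ℝ^d` is `{(b v + s v, s) : s ∈ ℝ}`; its direction
is `(v, 1)`.  `lineMax δ b f v` is the supremum of the averages of `|f|` over the `δ`-tubes of length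
one with axis on the line number `v`.  (The Kakeya maximal conjecture is, after linearisation, the
estimate at the exponent `n` for ALL measurable `b`, uniformly in `b`.)

*Skew products.*  Split the directions, `ℝ^d = ℝ^{d1} × ℝ^{d2}` (any orthogonal splitting), and let
the first component of `b (v1, v2)` be `b1 v1` and the second one `b2 v1 v2`, where the dependence of
the families `b2 v1` on `v1` is completely arbitrary (measurable).

* (composition) If `b1` satisfies a maximal estimate `L^{p1} → L^{l p1}` and every `b2 v1` satisfies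
  one `L^{p2} → L^{l p2}`, then the skew product satisfies the one with the exponent `p1 + p2 - 1`,
  and the constants are multiplied.  The exponents `n` of the conjecture are reproduced:
  `(d1 + 1) + (d2 + 1) - 1 = d + 1`.
* (towers, logarithmic loss) Families obtained by any number of skew products and countable
  decompositions from ARBITRARY measurable families of lines in the plane, from families with at
  most `M` lines through almost every point given by a map that is Lipschitz on countably many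
  pieces, and from section-monotone families, satisfy the conjectured estimate at the critical
  exponent `n` with the loss `(1 + log (1/δ))^(n-1)`.
* (towers, loss `δ^(-ε)`) The same with the loss `δ^(-ε)` if smooth families, and any families that
  satisfy the conjectured estimate with the constants `c ε`, are admitted as further stages.
-/

open MeasureTheory Set ENNReal NNReal Metric

namespace Pool.Agent.Results.MP_5168f5_an.TowerFamilies

/-- Euclidean space `ℝ^d`. -/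
abbrev Vec (d : ℕ) : Type := EuclideanSpace ℝ (Fin d)

/-- Euclidean space `ℝ^{d+1}`, written as `ℝ^d × ℝ` with the Euclidean norm. -/
abbrev Space (d : ℕ) : Type := WithLp 2 (Vec d × ℝ)

/-- The unit vector `(v, 1)/√(1+|v|²)`. -/
noncomputable def dir {d : ℕ} (v : Vec d) : Space d :=
  (√(1 + ‖v‖ ^ 2))⁻¹ • WithLp.toLp 2 (v, (1:ℝ))

/-- The closed tube of length `1` and radius `δ` with centre `a` and axis direction `e`. -/
def tube {d : ℕ} (δ : ℝ) (e a : Space d) : Set (Space d) :=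
  {y | |inner ℝ (y - a) e| ≤ 1 / 2 ∧ ‖(y - a) - (inner ℝ (y - a) e : ℝ) • e‖ ≤ δ}

/-- The point of height `s` on the line `{(b v + s v, s)}`. -/
noncomputable def linePt {d : ℕ} (b : Vec d → Vec d) (v : Vec d) (s : ℝ) : Space d :=
  WithLp.toLp 2 (b v + s • v, s)

/-- Supremum of the averages of `|f|` over the `δ`-tubes with axis on the line number `v`. -/
noncomputable def lineMax {d : ℕ} (δ : ℝ) (b : Vec d → Vec d) (f : Space d → ℝ) (v : Vec d) : ℝ≥0∞ :=
  ⨆ s : ℝ, (volume (tube δ (dir v) (linePt b v s)))⁻¹ *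
    ∫⁻ y in tube δ (dir v) (linePt b v s), ‖f y‖ₑ

/-- `f` vanishes at the heights outside `T`. -/
def VanishesOff {d : ℕ} (T : Set ℝ) (f : Space d → ℝ) : Prop :=
  ∀ (y : Vec d) (t : ℝ), t ∉ T → f (WithLp.toLp 2 (y, t)) = 0

/-- The maximal estimate `∫_B (lineMax δ b f)^(l p) ≤ C (∫ |f|^p)^l` for the family `b`, the set `B`
of directions and all measurable `f` that live at heights in `T`. -/
def Estimate {d : ℕ} (T : Set ℝ) (δ l p : ℝ) (C : ℝ≥0∞) (B : Set (Vec d)) (b : Vec d → Vec d) :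
    Prop :=
  ∀ f : Space d → ℝ, Measurable f → VanishesOff T f →
    ∫⁻ v in B, lineMax δ b f v ^ (l * p) ≤ C * (∫⁻ y, ‖f y‖ₑ ^ p) ^ l

/-- The estimate at the critical exponent `n = d + 1`: `∫_B (lineMax δ b f)^n ≤ C ∫ |f|^n`. -/
def Critical {d : ℕ} (T : Set ℝ) (δ : ℝ) (C : ℝ≥0∞) (B : Set (Vec d)) (b : Vec d → Vec d) : Prop :=
  ∀ f : Space d → ℝ, Measurable f → VanishesOff T f →
    ∫⁻ v in B, lineMax δ b f v ^ (d + 1) ≤ C * ∫⁻ y, ‖f y‖ₑ ^ (d + 1)

/-- Up to a null set, `B` is covered by countably many measurable sets on which `b` is Lipschitz. -/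
def LipPieces {d : ℕ} (B : Set (Vec d)) (b : Vec d → Vec d) : Prop :=
  ∃ P : ℕ → Set (Vec d), (∀ k, MeasurableSet (P k)) ∧ volume (B \ ⋃ k, P k) = 0 ∧
    ∀ k, ∃ C : ℝ≥0, LipschitzOnWith C b (P k)

/-- For almost every height `t ∈ T`, almost every point of height `t` lies on at most `M` of the
lines with direction in `B`. -/
def OverlapLE {d : ℕ} (M : ℕ) (T : Set ℝ) (B : Set (Vec d)) (b : Vec d → Vec d) : Prop :=
  ∀ᵐ t : ℝ, t ∈ T → ∀ᵐ y : Vec d, {v | v ∈ B ∧ b v + t • v = y}.encard ≤ M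

/-- For almost every height `t ∈ T` the section map `v ↦ b v + t v` becomes monotone on `B` after
composition with an invertible linear map `K` (which may depend on `t`). -/
def SectionMonotone {d : ℕ} (T : Set ℝ) (B : Set (Vec d)) (b : Vec d → Vec d) : Prop :=
  ∀ᵐ t : ℝ, t ∈ T → ∃ K : Vec d →L[ℝ] Vec d, K.det ≠ 0 ∧
    ∀ v ∈ B, ∀ w ∈ B, 0 ≤ inner ℝ (K ((b v + t • v) - (b w + t • w))) (v - w)

/-- The polynomial map `ℝ^d → ℝ^d` with components `P i`. -/
noncomputable def polyMap {d : ℕ} (P : Fin d → MvPolynomial (Fin d) ℝ) (v : Vec d) : Vec d :=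
  WithLp.toLp 2 (fun i => MvPolynomial.eval (fun j => v j) (P i))

/-- `b` is of class `C^k` on `B` in the sense of Taylor approximation, with constant `A`: at every
`v₀ ∈ B` there is a polynomial map of degree `< k` with `|b v - P v| ≤ A |v - v₀|^k` on `B`. -/
def TaylorClass {d : ℕ} (k : ℕ) (A : ℝ) (B : Set (Vec d)) (b : Vec d → Vec d) : Prop :=
  ∀ v₀ ∈ B, ∃ P : Fin d → MvPolynomial (Fin d) ℝ, (∀ i, (P i).totalDegree < k) ∧
    ∀ v ∈ B, ‖b v - polyMap P v‖ ≤ A * ‖v - v₀‖ ^ k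

/-- The rough stages: arbitrary families of lines in the plane; families with at most `M` lines
through almost every point, given by a map that is Lipschitz on countably many pieces;
section-monotone families. -/
inductive RoughStage (T : Set ℝ) : (d : ℕ) → ℝ≥0 → Set (Vec d) → (Vec d → Vec d) → Prop
  | planar {B : Set (Vec 1)} {b : Vec 1 → Vec 1} : RoughStage T 1 1 B b
  | overlap {d M : ℕ} {B : Set (Vec d)} {b : Vec d → Vec d} (hM : 1 ≤ M)
      (hL : LipPieces B b) (hO : OverlapLE M T B b) : RoughStage T d M B b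
  | monotone {d : ℕ} {B : Set (Vec d)} {b : Vec d → Vec d} (hS : SectionMonotone T B b) :
      RoughStage T d 1 B b

/-- All stages: the rough ones; the families with the Taylor constants `A k` of order `k`, `k ≥ 1`
(in particular smooth families); all the families that satisfy the estimate at the critical
exponent with the constants `c ε d * M` and the loss `δ^(-ε)`. -/
inductive Stage (T : Set ℝ) (A : ℕ → ℝ) (c : ℝ → ℕ → ℝ≥0) :
    (d : ℕ) → ℝ≥0 → Set (Vec d) → (Vec d → Vec d) → Prop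
  | rough {d : ℕ} {M : ℝ≥0} {B : Set (Vec d)} {b : Vec d → Vec d}
      (h : RoughStage T d M B b) : Stage T A c d M B b
  | taylor {d : ℕ} {B : Set (Vec d)} {b : Vec d → Vec d} (h : ∀ k, 1 ≤ k → TaylorClass k (A k) B b) :
      Stage T A c d 1 B b
  | maximal {d : ℕ} {M : ℝ≥0} {B : Set (Vec d)} {b : Vec d → Vec d}
      (h : ∀ ε : ℝ, 0 < ε → ∀ δ : ℝ, 0 < δ → δ < 1 →
        Critical T δ (c ε d * M * ENNReal.ofReal (δ ^ (-ε))) B b) : Stage T A c d M B b

/-- The two components of the vector `v` in the orthogonal splitting `Φ`. -/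
noncomputable def split {d d1 d2 : ℕ} (Φ : Vec d ≃ₗᵢ[ℝ] WithLp 2 (Vec d1 × Vec d2)) (v : Vec d) :
    Vec d1 × Vec d2 := WithLp.ofLp (Φ v)

/-- The family `b` on `B` is the skew product of the family `b1` on `B1` and of the families `b2 v` on
`B2 v`, `v ∈ B1`, for the orthogonal splitting `Φ` of `ℝ^d`; all the data are measurable. -/
def IsSkew {d d1 d2 : ℕ} (Φ : Vec d ≃ₗᵢ[ℝ] WithLp 2 (Vec d1 × Vec d2)) (B : Set (Vec d))
    (B1 : Set (Vec d1)) (B2 : Vec d1 → Set (Vec d2)) (b : Vec d → Vec d) (b1 : Vec d1 → Vec d1)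
    (b2 : Vec d1 → Vec d2 → Vec d2) : Prop :=
  MeasurableSet {z : Vec d1 × Vec d2 | z.1 ∈ B1 ∧ z.2 ∈ B2 z.1} ∧
    Measurable (Function.uncurry b2) ∧ MeasurableSet B ∧ B ⊆ closedBall 0 1 ∧ Measurable b ∧
    ∀ v ∈ B, (split Φ v).1 ∈ B1 ∧ (split Φ v).2 ∈ B2 (split Φ v).1 ∧
      split Φ (b v) = (b1 (split Φ v).1, b2 (split Φ v).1 (split Φ v).2)

/-- Towers over a class `𝒮` of stages; `M` is the multiplicity and `B` the set of directions. -/
inductive Tower (𝒮 : (d : ℕ) → ℝ≥0 → Set (Vec d) → (Vec d → Vec d) → Prop) :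
    (d : ℕ) → ℝ≥0 → Set (Vec d) → (Vec d → Vec d) → Prop
  | stage {d : ℕ} {M : ℝ≥0} {B : Set (Vec d)} {b : Vec d → Vec d} (hd : 1 ≤ d)
      (hB : MeasurableSet B) (hB1 : B ⊆ closedBall 0 1) (hb : Measurable b) (h : 𝒮 d M B b) :
      Tower 𝒮 d M B b
  | pieces {d : ℕ} {M : ℝ≥0} {b : Vec d → Vec d} (m : ℕ → ℝ≥0) (B : ℕ → Set (Vec d))
      (h : ∀ j, Tower 𝒮 d (m j) (B j) b) (hM : ∑' j, (m j : ℝ≥0∞) ≤ M) : Tower 𝒮 d M (⋃ j, B j) b
  | skew {d d1 d2 : ℕ} {M1 M2 : ℝ≥0} {B : Set (Vec d)} {B1 : Set (Vec d1)}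
      {B2 : Vec d1 → Set (Vec d2)} {b : Vec d → Vec d} {b1 : Vec d1 → Vec d1}
      {b2 : Vec d1 → Vec d2 → Vec d2} (Φ : Vec d ≃ₗᵢ[ℝ] WithLp 2 (Vec d1 × Vec d2))
      (hd1 : 1 ≤ d1) (hd2 : 1 ≤ d2) (hM2 : 0 < M2)
      (h1 : Tower 𝒮 d1 M1 B1 b1) (h2 : ∀ v ∈ B1, Tower 𝒮 d2 M2 (B2 v) (b2 v))
      (hs : IsSkew Φ B B1 B2 b b1 b2) : Tower 𝒮 d (M1 * M2) B b

open Pool.Agent.TH426.Kt (KTower RegBase BaseBd Rough AllB LMb VanOff Pw win spl Kc cc KK cb Lg)

theorem toK {𝒮 : (d : ℕ) → ℝ≥0 → Set (Vec d) → (Vec d → Vec d) → Prop}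
    {𝓑 : (d : ℕ) → ℝ → ℝ≥0 → Set (Vec d) → (Vec d → Vec d) → Prop}
    (h0 : ∀ {d : ℕ} {M : ℝ≥0} {B : Set (Vec d)} {b : Vec d → Vec d}, 1 ≤ d → MeasurableSet B →
      B ⊆ closedBall 0 1 → Measurable b → 𝒮 d M B b → 𝓑 d (d + 1) M B b)
    {d : ℕ} {M : ℝ≥0} {B : Set (Vec d)} {b : Vec d → Vec d} (h : Tower 𝒮 d M B b) :
    KTower 𝓑 d (d + 1) M B b := by
  induction h with
  | stage hd hB hB1 hb h => exact KTower.base (h0 hd hB hB1 hb h)
  | pieces m B h hM ih => exact KTower.union m B ih hM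
  | @skew d d1 d2 M1 M2 B B1 B2 b b1 b2 Φ hd1 hd2 hM2 h1 h2 hs ih1 ih2 =>
    obtain ⟨hB2, hb2, hB, hB1, hb, hbB⟩ := hs
    have hd : (d : ℝ) = d1 + d2 := by
      have := Pool.Agent.TH426.Kt.dim_eq Φ
      exact_mod_cast this
    have e : (d : ℝ) + 1 = (d1 + 1) + (d2 + 1) - 1 := by rw [hd]; ring
    rw [e]
    exact KTower.skew Φ hd1 hd2 hM2 ih1 ih2 hB2 hb2 hB hB1 hb hbB

theorem toRough {T : Set ℝ} {d : ℕ} {M : ℝ≥0} {B : Set (Vec d)} {b : Vec d → Vec d} (hd : 1 ≤ d)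
    (hB : MeasurableSet B) (hB1 : B ⊆ closedBall 0 1) (hb : Measurable b)
    (h : RoughStage T d M B b) : Rough T d (d + 1) M B b := by
  cases h with
  | planar => exact Rough.planar hB hB1 hb
  | overlap hM hL hO => exact Rough.overlap hd hM hB hB1 hb hL hO
  | monotone hS => exact Rough.monotone hd hB hB1 hb hS

/-- The class of stages in the form used by the closure theorem. -/
def GenB (T : Set ℝ) (A : ℕ → ℝ) (c : ℝ → ℕ → ℝ≥0)
    (d : ℕ) (p : ℝ) (M : ℝ≥0) (B : Set (Vec d)) (b : Vec d → Vec d) : Prop :=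
  AllB T A d p M B b ∨ (p = d + 1 ∧ 1 ≤ d ∧ MeasurableSet B ∧ B ⊆ closedBall 0 1 ∧
    Measurable b ∧ ∀ ε : ℝ, 0 < ε → ∀ δ : ℝ, 0 < δ → δ < 1 →
      Critical T δ (c ε d * M * ENNReal.ofReal (δ ^ (-ε))) B b)

theorem genB_reg (T : Set ℝ) (A : ℕ → ℝ) (c : ℝ → ℕ → ℝ≥0) : RegBase (GenB T A c) := by
  constructor
  · intro d p N B b h
    rcases h with h | h
    · exact (Pool.Agent.TH426.Kt.allB_reg T A).meas h
    · exact ⟨h.2.2.1, h.2.2.2.1, h.2.2.2.2.1⟩
  · intro d p N B b h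
    rcases h with h | h
    · exact (Pool.Agent.TH426.Kt.allB_reg T A).expo h
    · have h0 : (0 : ℝ) ≤ d := Nat.cast_nonneg d
      rw [h.1]
      constructor <;> linarith

theorem genB_bd (A : ℕ → ℝ) (c : ℝ → ℕ → ℝ≥0) (ε : ℝ) (hε : 0 < ε) :
    ∃ c' : ℕ → ℝ≥0∞, (∀ d, c' d ≠ ∞) ∧ ∀ (T : Set ℝ) (δ : ℝ) (k : ℤ), MeasurableSet T → 0 < δ →
      δ < 1 → BaseBd (GenB T A c) (3 * δ) (win T k) 1 c' (Pw ε δ) 1 := by
  obtain ⟨c2, hc2, hbd⟩ := Pool.Agent.TH426.Kt.allB_bd A ε hε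
  set c1 : ℕ → ℝ≥0∞ := fun d => (2 ^ d) ^ ((1 : ℝ) * (d + 1)) * ((3 * 8 ^ d) ^ ((1 : ℝ) * (d + 1)) *
    (c ε d : ℝ≥0∞)) with hc1
  have hc1t : ∀ d, c1 d ≠ ∞ := by
    intro d
    have h0 : (0 : ℝ) ≤ 1 * ((d : ℝ) + 1) := by positivity
    apply ENNReal.mul_ne_top
    · exact ENNReal.rpow_ne_top_of_nonneg h0 (ENNReal.pow_ne_top (by simp))
    · apply ENNReal.mul_ne_top _ ENNReal.coe_ne_top
      exact ENNReal.rpow_ne_top_of_nonneg h0
        (ENNReal.mul_ne_top (by simp) (ENNReal.pow_ne_top (by simp)))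
  refine ⟨fun d => c2 d + c1 d, fun d => ENNReal.add_ne_top.2 ⟨hc2 d, hc1t d⟩, ?_⟩
  intro T δ k hT hδ hδ1 d p M B b hb
  rcases hb with hb | ⟨rfl, hd', hB, hB1, hbm, hS⟩
  · refine (hbd T δ k hT hδ hδ1 hb).mono ?_ subset_rfl
    gcongr
    exact le_self_add
  · have hl : LMb δ T 1 ((d : ℝ) + 1) (c ε d * M * Pw ε δ ^ d) B b := by
      apply Pool.Agent.TH426.Kt.lmb_of_nat
      intro f hf hfT
      refine (hS ε hε δ hδ hδ1 f hf hfT).trans ?_
      have h1 : ENNReal.ofReal (δ ^ (-ε)) ≤ Pw ε δ ^ d :=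
        le_self_pow₀ (Pool.Agent.TH426.Kt.one_le_Pw hε hδ hδ1) (by omega)
      gcongr
    have h0 : (0 : ℝ) ≤ d := Nat.cast_nonneg d
    refine (Pool.Agent.TH426.Kt.wb_of_lmb hδ hδ1 hT
      zero_le_one (by linarith) (by linarith) hB hB1 hbm hl k).mono ?_ subset_rfl
    rw [ENNReal.one_rpow, mul_one]
    calc (2 ^ d) ^ ((1 : ℝ) * (d + 1)) * ((3 * 8 ^ d) ^ ((1 : ℝ) * (d + 1)) *
          (c ε d * M * Pw ε δ ^ d)) = c1 d * M * Pw ε δ ^ d := by rw [hc1]; ring
      _ ≤ (c2 d + c1 d) * M * Pw ε δ ^ d := by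
          gcongr
          exact le_add_self

theorem critical_of_lmb {d : ℕ} {T : Set ℝ} {δ : ℝ} {C C' : ℝ≥0∞} {B : Set (Vec d)}
    {b : Vec d → Vec d} (h : LMb δ T 1 ((d : ℝ) + 1) C B b) (hC : C ≤ C') :
    Critical T δ C' B b := by
  intro f hf hfT
  have h1 := h f hf hfT
  have e : ∀ x : ℝ≥0∞, x ^ ((1 : ℝ) * ((d : ℝ) + 1)) = x ^ (d + 1) := by
    intro x
    rw [one_mul]
    exact_mod_cast ENNReal.rpow_natCast x (d + 1)
  have e2 : ∀ x : ℝ≥0∞, x ^ ((d : ℝ) + 1) = x ^ (d + 1) := by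
    intro x
    exact_mod_cast ENNReal.rpow_natCast x (d + 1)
  rw [ENNReal.rpow_one] at h1
  simp only [e, e2] at h1
  exact h1.trans (mul_le_mul_left hC _)

theorem bound_ne_top {c0 : ℕ → ℝ≥0∞} (h : ∀ n, c0 n ≠ ∞) (d : ℕ) :
    cb d ^ ((d : ℝ) + 1) * cc c0 (KK 1) d ≠ ∞ := by
  apply ENNReal.mul_ne_top
  · exact ENNReal.rpow_ne_top_of_nonneg (by positivity) (Pool.Agent.TH426.Kt.cb_ne_top d)
  · exact Pool.Agent.TH426.Kt.cc_ne_top h (fun i j => Pool.Agent.TH426.Kt.KK_ne_top zero_le_one i j) d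

/-- **Kakeya maximal estimates for skew products and for towers of families of lines.** -/
theorem result :
    -- composition: the estimates are stable under skew products
    (∀ (d1 d2 : ℕ) (l p1 p2 : ℝ), 1 ≤ l → 1 ≤ p1 → 1 ≤ p2 → ∃ K : ℝ, 0 < K ∧
      ∀ (d : ℕ) (Φ : Vec d ≃ₗᵢ[ℝ] WithLp 2 (Vec d1 × Vec d2)) (T : Set ℝ) (δ C1 C2 : ℝ)
        (B : Set (Vec d)) (B1 : Set (Vec d1)) (B2 : Vec d1 → Set (Vec d2)) (b b' : Vec d → Vec d)
        (b1 : Vec d1 → Vec d1) (b2 : Vec d1 → Vec d2 → Vec d2),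
        MeasurableSet T → 0 < δ → δ < 1 → 0 ≤ C1 → 0 < C2 → MeasurableSet B1 →
        B1 ⊆ closedBall 0 1 → (∀ v ∈ B1, B2 v ⊆ closedBall 0 1) → Measurable b1 →
        IsSkew Φ B B1 B2 b b1 b2 → (∀ v ∈ B, ‖b' v - b v‖ ≤ δ) →
        Estimate T δ l p1 (ENNReal.ofReal C1) B1 b1 →
        (∀ v ∈ B1, Estimate T δ l p2 (ENNReal.ofReal C2) (B2 v) (b2 v)) →
        Estimate T δ l (p1 + p2 - 1) (ENNReal.ofReal (K * (C1 * C2))) B b') ∧
    -- rough towers: the critical exponent, with a logarithmic loss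
    (∀ d : ℕ, ∃ C : ℝ, 0 < C ∧ ∀ (T : Set ℝ) (M : ℝ≥0) (B : Set (Vec d)) (b b' : Vec d → Vec d)
      (δ : ℝ), MeasurableSet T → Tower (RoughStage T) d M B b → 0 < δ → δ < 1 →
      (∀ v ∈ B, ‖b' v - b v‖ ≤ δ) →
      Critical T δ (ENNReal.ofReal (C * M * (1 + Real.log (1 / δ)) ^ d)) B b') ∧
    -- all towers: the critical exponent, with the loss `δ^(-ε)`
    (∀ (d : ℕ) (ε : ℝ) (A : ℕ → ℝ) (c : ℝ → ℕ → ℝ≥0), 0 < ε → ∃ C : ℝ, 0 < C ∧
      ∀ (T : Set ℝ) (M : ℝ≥0) (B : Set (Vec d)) (b b' : Vec d → Vec d) (δ : ℝ),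
      MeasurableSet T → Tower (Stage T A c) d M B b → 0 < δ → δ < 1 →
      (∀ v ∈ B, ‖b' v - b v‖ ≤ δ) →
      Critical T δ (ENNReal.ofReal (C * M * δ ^ (-ε))) B b') := by
  refine ⟨?_, ?_, ?_⟩
  · intro d1 d2 l p1 p2 hl hp1 hp2
    have hK := Pool.Agent.TH426.Kt.Kc_ne_top d1 d2 (l := l) (by linarith) hp1 hp2
    refine ⟨(Kc d1 d2 l p1 p2).toReal + 1, by positivity, ?_⟩
    intro d Φ T δ C1 C2 B B1 B2 b b' b1 b2 hT hδ hδ1 hC1 hC2 hB1m hB1 hB2 hb1 hsk hbb h1 h2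
    obtain ⟨hz, hb2, hB, hB', hb, hbB⟩ := hsk
    have key := Pool.Agent.TH426.Kt.composition Φ hδ hδ1 hT hl hp1 hp2
      (C1 := ENNReal.ofReal C1) (C2 := ENNReal.ofReal C2) (by simpa using hC2) ENNReal.ofReal_ne_top
      hB1m hB1 hz hB2 hB hB' hb hb1 hb2 hbB hbb h1 h2
    intro f hf hfT
    refine (key f hf hfT).trans (mul_le_mul_left ?_ _)
    rw [ENNReal.ofReal_mul (by positivity), ENNReal.ofReal_mul hC1]
    gcongr
    calc Kc d1 d2 l p1 p2 = ENNReal.ofReal (Kc d1 d2 l p1 p2).toReal := (ENNReal.ofReal_toReal hK).symm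
      _ ≤ _ := ENNReal.ofReal_le_ofReal (by linarith)
  · intro d
    have hct := bound_ne_top Pool.Agent.TH426.Kt.c0_ne_top d
    set c9 : ℝ≥0∞ := cb d ^ ((d : ℝ) + 1) * cc Pool.Agent.TH426.Kt.c0 (KK 1) d with hc9
    refine ⟨c9.toReal + 1, by positivity, ?_⟩
    intro T M B b b' δ hT hTw hδ hδ1 hbb
    have hk : KTower (Rough T) d (d + 1) M B b := toK (fun hd hB hB1 hb h => toRough hd hB hB1 hb h) hTw
    have hL0 : Lg δ ≠ 0 := by
      have := Pool.Agent.TH426.Kt.one_le_Lg hδ hδ1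
      exact (lt_of_lt_of_le one_pos this).ne'
    have key := Pool.Agent.TH426.Kt.tower_lmb (Pool.Agent.TH426.Kt.rough_reg T) hδ hδ1 hT
      Pool.Agent.TH426.Kt.c0_ne_top hL0 (Pool.Agent.TH426.Kt.Lg_ne_top δ)
      (fun k => Pool.Agent.TH426.Kt.rough_bd hT hδ hδ1 k) hk hbb
    refine critical_of_lmb key ?_
    have hlog : 0 ≤ 1 + Real.log (1 / δ) := by
      have : 0 ≤ Real.log (1 / δ) := Real.log_nonneg (by rw [le_div_iff₀ hδ]; linarith)
      linarith
    rw [← hc9, ENNReal.ofReal_mul (by positivity), ENNReal.ofReal_mul (by positivity),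
      ENNReal.ofReal_pow hlog, ENNReal.ofReal_coe_nnreal]
    change c9 * (M : ℝ≥0∞) * Lg δ ^ d ≤ ENNReal.ofReal (c9.toReal + 1) * M * Lg δ ^ d
    gcongr
    calc c9 = ENNReal.ofReal c9.toReal := (ENNReal.ofReal_toReal hct).symm
      _ ≤ _ := ENNReal.ofReal_le_ofReal (by linarith)
  · intro d ε A c hε
    rcases Nat.eq_zero_or_pos d with hd0 | hd
    · refine ⟨1, one_pos, ?_⟩
      intro T M B b b' δ hT hTw
      exfalso
      have hpos : ∀ {d : ℕ} {M : ℝ≥0} {B : Set (Vec d)} {b : Vec d → Vec d},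
          Tower (Stage T A c) d M B b → 1 ≤ d := by
        intro d M B b h
        induction h with
        | stage hd => exact hd
        | pieces m B h hM ih => exact ih 0
        | @skew d d1 d2 M1 M2 B B1 B2 b b1 b2 Φ hd1 hd2 hM2 h1 h2 hs ih1 ih2 =>
          have := Pool.Agent.TH426.Kt.dim_eq Φ
          omega
      have := hpos hTw
      omega
    · have hdr : (0 : ℝ) < d := by exact_mod_cast hd
      set ε' : ℝ := ε / d with hε'
      have hε'0 : 0 < ε' := by positivity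
      obtain ⟨c', hc', hbd⟩ := genB_bd A c ε' hε'0
      have hct := bound_ne_top hc' d
      set c9 : ℝ≥0∞ := cb d ^ ((d : ℝ) + 1) * cc c' (KK 1) d with hc9
      refine ⟨c9.toReal + 1, by positivity, ?_⟩
      intro T M B b b' δ hT hTw hδ hδ1 hbb
      have hk : KTower (GenB T A c) d (d + 1) M B b := by
        refine toK (fun {d M B b} hd hB hB1 hb h => ?_) hTw
        cases h with
        | rough h => exact Or.inl (AllB.rough (toRough hd hB hB1 hb h))
        | taylor h => exact Or.inl (AllB.smooth hd hB hB1 hb h)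
        | maximal h => exact Or.inr ⟨rfl, hd, hB, hB1, hb, h⟩
      have hL0 : Pw ε' δ ≠ 0 := by
        have := Pool.Agent.TH426.Kt.one_le_Pw hε'0 hδ hδ1
        exact (lt_of_lt_of_le one_pos this).ne'
      have key := Pool.Agent.TH426.Kt.tower_lmb (genB_reg T A c) hδ hδ1 hT
        hc' hL0 (Pool.Agent.TH426.Kt.Pw_ne_top ε' δ) (fun k => hbd T δ k hT hδ hδ1) hk hbb
      refine critical_of_lmb key ?_
      have e5 : (δ ^ (-ε')) ^ d = δ ^ (-ε) := by
        rw [← Real.rpow_natCast, ← Real.rpow_mul hδ.le]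
        congr 1
        rw [hε']
        field_simp
      rw [← hc9, ENNReal.ofReal_mul (by positivity), ENNReal.ofReal_mul (by positivity), ← e5,
        ENNReal.ofReal_pow (by positivity), ENNReal.ofReal_coe_nnreal]
      change c9 * (M : ℝ≥0∞) * Pw ε' δ ^ d ≤ ENNReal.ofReal (c9.toReal + 1) * M * Pw ε' δ ^ d
      gcongr
      calc c9 = ENNReal.ofReal c9.toReal := (ENNReal.ofReal_toReal hct).symm
        _ ≤ _ := ENNReal.ofReal_le_ofReal (by linarith)

end Pool.Agent.Results.MP_5168f5_an.TowerFamilies
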